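import Mathlib

set_option autoImplicit false

/-!
# A branch group on the binary tree with an automorphism not induced by the tree

`LG` is the group of all automorphisms of the binary rooted tree (words over `Bool`) acting on
the four words of length two as a translation group (the regular Klein four group).
Swapping the first two letters induces an automorphism of `LG`.
-/

namespace Pool.Agent.Helper149_branch

/-- words over a two letter alphabet -/
abbrev X := List Bool

/-- `g` preserves the tree structure and the level of each vertex -/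
def Pre (g : Equiv.Perm X) : Prop :=
  (∀ v w : X, v <+: w ↔ g v <+: g w) ∧ ∀ v : X, (g v).length = v.length

/-- `g` acts on the first two letters as the translation by `(a, b)` -/
def Tr (a b : Bool) (g : Equiv.Perm X) : Prop :=
  ∀ (x y : Bool) (t : X), ∃ s : X, g (x :: y :: t) = (xor x a) :: (xor y b) :: s

theorem Pre.one : Pre 1 := ⟨fun _ _ => Iff.rfl, fun _ => rfl⟩

theorem Pre.mul {g h : Equiv.Perm X} (hg : Pre g) (hh : Pre h) : Pre (g * h) :=
  ⟨fun v w => (hh.1 v w).trans (hg.1 _ _), fun v => (hg.2 _).trans (hh.2 v)⟩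

theorem Pre.inv {g : Equiv.Perm X} (hg : Pre g) : Pre g⁻¹ := by
  refine ⟨fun v w => ?_, fun v => ?_⟩
  · have := hg.1 (g⁻¹ v) (g⁻¹ w)
    simpa using this.symm
  · have := hg.2 (g⁻¹ v)
    simpa using this.symm

theorem Tr.one : Tr false false 1 := fun x y t => ⟨t, by simp⟩

theorem Tr.mul {a b a' b' : Bool} {g h : Equiv.Perm X} (hg : Tr a b g) (hh : Tr a' b' h) :
    Tr (xor a' a) (xor b' b) (g * h) := by
  intro x y t
  obtain ⟨s, hs⟩ := hh x y t
  obtain ⟨s', hs'⟩ := hg (xor x a') (xor y b') s
  exact ⟨s', by rw [Equiv.Perm.mul_apply, hs, hs']; simp [Bool.xor_assoc]⟩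

theorem two_le {l : X} (h : 2 ≤ l.length) : ∃ x y t, l = x :: y :: t := by
  match l, h with
  | x :: y :: t, _ => exact ⟨x, y, t, rfl⟩

theorem Tr.inv {a b : Bool} {g : Equiv.Perm X} (hp : Pre g) (hg : Tr a b g) : Tr a b g⁻¹ := by
  intro x y t
  have hlen : 2 ≤ (g⁻¹ (x :: y :: t)).length := by
    rw [hp.inv.2]; simp
  obtain ⟨x', y', t', h'⟩ := two_le hlen
  have h2 : g (x' :: y' :: t') = x :: y :: t := by rw [← h']; simp
  obtain ⟨s, hs⟩ := hg x' y' t'
  rw [hs] at h2
  simp only [List.cons.injEq] at h2
  obtain ⟨h3, h4, h5⟩ := h2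
  refine ⟨t', ?_⟩
  rw [h', ← h3, ← h4]
  simp [Bool.xor_assoc]

/-- the group: tree automorphisms acting on the second level as translations -/
def LG : Subgroup (Equiv.Perm X) where
  carrier := {g | Pre g ∧ ∃ a b, Tr a b g}
  one_mem' := ⟨Pre.one, _, _, Tr.one⟩
  mul_mem' := by
    rintro g h ⟨hg, a, b, hab⟩ ⟨hh, a', b', hab'⟩
    exact ⟨hg.mul hh, _, _, hab.mul hab'⟩
  inv_mem' := by
    rintro g ⟨hg, a, b, hab⟩
    exact ⟨hg.inv, _, _, hab.inv hg⟩

theorem mem_LG {g : Equiv.Perm X} : g ∈ LG ↔ Pre g ∧ ∃ a b, Tr a b g := Iff.rfl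

theorem Tr.unique {a b a' b' : Bool} {g : Equiv.Perm X} (h : Tr a b g) (h' : Tr a' b' g) :
    a = a' ∧ b = b' := by
  obtain ⟨s, hs⟩ := h false false []
  obtain ⟨s', hs'⟩ := h' false false []
  rw [hs] at hs'
  simp only [List.cons.injEq] at hs'
  exact ⟨by simpa using hs'.1, by simpa using hs'.2.1⟩

/-! ### Swapping the first two letters -/

/-- swap the first two letters -/
def sw : X → X
  | x :: y :: t => y :: x :: t
  | l => l

@[simp] theorem sw_cons (x y : Bool) (t : X) : sw (x :: y :: t) = y :: x :: t := rfl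

theorem sw_sw (l : X) : sw (sw l) = l := by
  match l with
  | [] => rfl
  | [x] => rfl
  | x :: y :: t => rfl

theorem sw_prefix (x y x' y' : Bool) (t t' : X) :
    (x :: y :: t) <+: (x' :: y' :: t') ↔ (y :: x :: t) <+: (y' :: x' :: t') := by
  simp only [List.cons_prefix_cons]
  tauto

/-- the twisted action -/
def tw (b : Bool) (g : X → X) : X → X
  | [] => []
  | [x] => [xor x b]
  | x :: y :: t => sw (g (y :: x :: t))

theorem tw_nil (b : Bool) (g : X → X) : tw b g [] = [] := rfl
theorem tw_one (b : Bool) (g : X → X) (x : Bool) : tw b g [x] = [xor x b] := rfl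
theorem tw_two (b : Bool) (g : X → X) (x y : Bool) (t : X) :
    tw b g (x :: y :: t) = sw (g (y :: x :: t)) := rfl

theorem tw_mul {a b a' b' : Bool} {g h : Equiv.Perm X} (hh : Tr a' b' h) (v : X) :
    tw b g (tw b' h v) = tw (xor b' b) (g * h : Equiv.Perm X) v := by
  match v with
  | [] => rfl
  | [x] => simp [tw_one, Bool.xor_assoc]
  | x :: y :: t =>
    obtain ⟨s, hs⟩ := hh y x t
    rw [tw_two, hs, sw_cons, tw_two, tw_two, Equiv.Perm.mul_apply, hs]

theorem tw_one' (v : X) : tw false (1 : Equiv.Perm X) v = v := by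
  match v with
  | [] => rfl
  | [x] => simp [tw_one]
  | x :: y :: t => rfl

theorem tw_inv {a b : Bool} {g : Equiv.Perm X} (hp : Pre g) (hg : Tr a b g) (v : X) :
    tw b (g⁻¹ : Equiv.Perm X) (tw b g v) = v := by
  rw [tw_mul (a := a) hg v]
  have : (g⁻¹ * g : Equiv.Perm X) = 1 := by simp
  rw [this, Bool.xor_self]
  exact tw_one' v

theorem tw_inv' {a b : Bool} {g : Equiv.Perm X} (hp : Pre g) (hg : Tr a b g) (v : X) :
    tw b g (tw b (g⁻¹ : Equiv.Perm X) v) = v := by
  rw [tw_mul (a := a) (hg.inv hp) v]
  have : (g * g⁻¹ : Equiv.Perm X) = 1 := by simp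
  rw [this, Bool.xor_self]
  exact tw_one' v

/-- the twist as a permutation -/
def twP (a b : Bool) (g : Equiv.Perm X) (hp : Pre g) (hg : Tr a b g) : Equiv.Perm X where
  toFun := tw b g
  invFun := tw b (g⁻¹ : Equiv.Perm X)
  left_inv := tw_inv hp hg
  right_inv := tw_inv' hp hg

theorem tw_length {a b : Bool} {g : Equiv.Perm X} (hp : Pre g) (hg : Tr a b g) (v : X) :
    (tw b g v).length = v.length := by
  match v with
  | [] => rfl
  | [x] => rfl
  | x :: y :: t =>
    obtain ⟨s, hs⟩ := hg y x t
    have h2 := hp.2 (y :: x :: t)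
    rw [hs] at h2
    rw [tw_two, hs, sw_cons]
    simpa using h2

theorem tw_prefix {a b : Bool} {g : Equiv.Perm X} (hp : Pre g) (hg : Tr a b g) (v w : X) :
    v <+: w ↔ tw b g v <+: tw b g w := by
  match v, w with
  | [], w => simp [tw_nil]
  | [x], [] => simp [tw_nil, tw_one]
  | x :: y :: t, [] =>
    obtain ⟨s, hs⟩ := hg y x t
    simp [tw_nil, tw_two, hs]
  | [x], [x'] => simp [tw_one]
  | [x], x' :: y' :: t' =>
    obtain ⟨s, hs⟩ := hg y' x' t'
    simp [tw_one, tw_two, hs]
  | x :: y :: t, [x'] =>
    obtain ⟨s, hs⟩ := hg y x t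
    simp [tw_one, tw_two, hs]
  | x :: y :: t, x' :: y' :: t' =>
    obtain ⟨s, hs⟩ := hg y x t
    obtain ⟨s', hs'⟩ := hg y' x' t'
    have h := hp.1 (y :: x :: t) (y' :: x' :: t')
    rw [sw_prefix, h, tw_two, tw_two, hs, hs', sw_cons, sw_cons, sw_prefix]

theorem twP_mem {a b : Bool} {g : Equiv.Perm X} (hp : Pre g) (hg : Tr a b g) :
    Pre (twP a b g hp hg) ∧ Tr b a (twP a b g hp hg) := by
  refine ⟨⟨fun v w => tw_prefix hp hg v w, fun v => tw_length hp hg v⟩, ?_⟩
  intro x y t
  obtain ⟨s, hs⟩ := hg y x t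
  exact ⟨s, by show tw b g (x :: y :: t) = _; rw [tw_two, hs, sw_cons]⟩

/-- the twist as a map of the group -/
noncomputable def al (g : LG) : LG :=
  ⟨twP g.2.2.choose g.2.2.choose_spec.choose g.1 g.2.1 g.2.2.choose_spec.choose_spec,
    (twP_mem g.2.1 g.2.2.choose_spec.choose_spec).1, _, _,
    (twP_mem g.2.1 g.2.2.choose_spec.choose_spec).2⟩

theorem al_apply {a b : Bool} (g : LG) (h : Tr a b g.1) (v : X) :
    (al g).1 v = tw b g.1 v := by
  have := (Tr.unique h g.2.2.choose_spec.choose_spec).2
  show tw g.2.2.choose_spec.choose g.1 v = _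
  rw [← this]

theorem al_Tr {a b : Bool} (g : LG) (h : Tr a b g.1) : Tr b a (al g).1 := by
  intro x y t
  obtain ⟨s, hs⟩ := h y x t
  exact ⟨s, by rw [al_apply g h, tw_two, hs, sw_cons]⟩

theorem al_al (g : LG) : al (al g) = g := by
  obtain ⟨hp, a, b, h⟩ := g.2
  apply Subtype.ext
  apply Equiv.ext
  intro v
  rw [al_apply (al g) (al_Tr g h)]
  match v with
  | [] =>
    have : (g.1 []).length = 0 := hp.2 []
    rw [tw_nil, List.eq_nil_of_length_eq_zero this]
  | [x] =>
    obtain ⟨s, hs⟩ := h x false []
    have h1 := (hp.1 [x] [x, false]).1 (by simp)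
    rw [hs] at h1
    have h2 : (g.1 [x]).length = 1 := hp.2 [x]
    rw [tw_one]
    obtain ⟨z, hz⟩ := List.length_eq_one_iff.1 h2
    rw [hz] at h1 ⊢
    simp at h1
    rw [h1]
  | x :: y :: t =>
    rw [tw_two, al_apply g h, tw_two, sw_sw]

theorem al_mul (g h : LG) : al (g * h) = al g * al h := by
  obtain ⟨hp, a, b, hg⟩ := g.2
  obtain ⟨hp', a', b', hh⟩ := h.2
  have hgh : Tr (xor a' a) (xor b' b) (g * h).1 := hg.mul hh
  apply Subtype.ext
  apply Equiv.ext
  intro v
  rw [al_apply _ hgh]
  show _ = (al g).1 ((al h).1 v)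
  rw [al_apply g hg, al_apply h hh, tw_mul (a := a) hh]
  rfl

/-- the automorphism of the group given by swapping the first two letters -/
noncomputable def alE : LG ≃* LG where
  toFun := al
  invFun := al
  left_inv := al_al
  right_inv := al_al
  map_mul' := al_mul

/-! ### Level transitivity -/

/-- letterwise translation -/
def tl : (ℕ → Bool) → X → X
  | _, [] => []
  | u, x :: t => (xor x (u 0)) :: tl (fun n => u (n + 1)) t

theorem tl_tl (u : ℕ → Bool) (l : X) : tl u (tl u l) = l := by
  induction l generalizing u with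
  | nil => rfl
  | cons x t ih => simp [tl, ih, Bool.xor_assoc]

theorem tl_length (u : ℕ → Bool) (l : X) : (tl u l).length = l.length := by
  induction l generalizing u with
  | nil => rfl
  | cons x t ih => simp [tl, ih]

theorem tl_prefix (u : ℕ → Bool) (v w : X) : v <+: w ↔ tl u v <+: tl u w := by
  induction v generalizing u w with
  | nil => simp [tl]
  | cons x t ih =>
    cases w with
    | nil => simp [tl]
    | cons y s => simp [tl, List.cons_prefix_cons, ← ih]

/-- letterwise translation as a permutation -/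
def tlP (u : ℕ → Bool) : Equiv.Perm X := ⟨tl u, tl u, tl_tl u, tl_tl u⟩

theorem tlP_mem (u : ℕ → Bool) : tlP u ∈ LG :=
  ⟨⟨fun v w => tl_prefix u v w, fun v => tl_length u v⟩, u 0, u 1, fun x y t => ⟨_, rfl⟩⟩

theorem exists_tl (v w : X) (h : v.length = w.length) : ∃ u, tl u v = w := by
  induction v generalizing w with
  | nil =>
    refine ⟨fun _ => false, ?_⟩
    simp only [List.length_nil] at h
    rw [List.eq_nil_of_length_eq_zero h.symm]
    rfl
  | cons x t ih =>
    cases w with
    | nil => simp at h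
    | cons y s =>
      obtain ⟨u, hu⟩ := ih s (by simpa using h)
      refine ⟨fun n => Nat.casesOn n (xor x y) u, ?_⟩
      simp only [tl]
      rw [hu]
      simp

theorem LG_trans (v w : X) (h : v.length = w.length) : ∃ g ∈ LG, g v = w := by
  obtain ⟨u, hu⟩ := exists_tl v w h
  exact ⟨tlP u, tlP_mem u, hu⟩

/-! ### Rigid stabilisers -/

/-- generators of the rigid stabiliser of level `n` -/
def RG (n : ℕ) : Set (Equiv.Perm X) :=
  {g | g ∈ LG ∧ ∃ u : X, u.length = n ∧ ∀ v : X, ¬ u <+: v → g v = v}

/-- the part of `g` below `u` -/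
def below (u : X) (g : X → X) (v : X) : X := if u <+: v then g v else v

theorem below_inv {u : X} {g : Equiv.Perm X} (hp : Pre g) (hu : g u = u) (v : X) :
    below u (g⁻¹ : Equiv.Perm X) (below u g v) = v := by
  unfold below
  by_cases h : u <+: v
  · have h2 : u <+: g v := by
      have := (hp.1 u v).1 h
      rwa [hu] at this
    rw [if_pos h, if_pos h2]
    simp
  · rw [if_neg h, if_neg h]

/-- the part of `g` below `u`, as a permutation -/
def belowP (u : X) (g : Equiv.Perm X) (hp : Pre g) (hu : g u = u) : Equiv.Perm X where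
  toFun := below u g
  invFun := below u (g⁻¹ : Equiv.Perm X)
  left_inv := below_inv hp hu
  right_inv := by
    intro v
    have hu' : g⁻¹ u = u := by
      rw [Equiv.Perm.inv_eq_iff_eq]; exact hu.symm
    have := below_inv (g := g⁻¹) hp.inv hu' v
    simpa using this

theorem belowP_apply (u : X) (g : Equiv.Perm X) (hp : Pre g) (hu : g u = u) (v : X) :
    belowP u g hp hu v = if u <+: v then g v else v := rfl

theorem prefix_iff_of_not {u v w : X} (h1 : ¬ u <+: v) (h2 : u <+: w) : v <+: w ↔ v <+: u := by
  constructor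
  · intro h
    rcases List.prefix_or_prefix_of_prefix h h2 with h' | h'
    · exact h'
    · exact absurd h' h1
  · intro h
    exact h.trans h2

theorem belowP_pre (u : X) (g : Equiv.Perm X) (hp : Pre g) (hu : g u = u) :
    Pre (belowP u g hp hu) := by
  have key : ∀ v, u <+: v → u <+: g v := by
    intro v h
    have := (hp.1 u v).1 h
    rwa [hu] at this
  refine ⟨fun v w => ?_, fun v => ?_⟩
  · rw [belowP_apply, belowP_apply]
    by_cases h : u <+: v
    · by_cases h' : u <+: w
      · rw [if_pos h, if_pos h']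
        exact hp.1 v w
      · rw [if_pos h, if_neg h']
        constructor
        · intro h2
          exact absurd (h.trans h2) h'
        · intro h2
          exact absurd ((key v h).trans h2) h'
    · by_cases h' : u <+: w
      · rw [if_neg h, if_pos h', prefix_iff_of_not h h', prefix_iff_of_not h (key w h')]
      · rw [if_neg h, if_neg h']
  · rw [belowP_apply]
    split_ifs
    · exact hp.2 v
    · rfl

/-- elements of `LG` fixing all words of length at most `N` -/
def Fix (N : ℕ) (g : Equiv.Perm X) : Prop := ∀ v : X, v.length ≤ N → g v = v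

theorem belowP_tr {N : ℕ} (hN : 2 ≤ N) {u : X} (g : Equiv.Perm X) (hp : Pre g) (hf : Fix N g)
    (hu : g u = u) : Tr false false (belowP u g hp hu) := by
  intro x y t
  rw [belowP_apply]
  split_ifs with h
  · have h1 := (hp.1 [x, y] (x :: y :: t)).1 (by simp [List.cons_prefix_cons])
    rw [hf [x, y] (by simpa using hN)] at h1
    obtain ⟨s, hs⟩ := h1
    exact ⟨s, by rw [← hs]; simp⟩
  · exact ⟨t, by simp⟩

theorem belowP_mem {N : ℕ} (hN : 2 ≤ N) {u : X} (g : Equiv.Perm X) (hp : Pre g) (hf : Fix N g)
    (hu : g u = u) : belowP u g hp hu ∈ LG :=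
  ⟨belowP_pre u g hp hu, _, _, belowP_tr hN g hp hf hu⟩

theorem belowP_fix {N : ℕ} {u : X} (g : Equiv.Perm X) (hp : Pre g) (hf : Fix N g)
    (hu : g u = u) : Fix N (belowP u g hp hu) := by
  intro v hv
  rw [belowP_apply]
  split_ifs
  · exact hf v hv
  · rfl

theorem mem_closure_of_support {n N : ℕ} (hN : 2 ≤ N) (hn : n ≤ N) (S : Finset X)
    (hS : ∀ u ∈ S, u.length = N) :
    ∀ g : Equiv.Perm X, g ∈ LG → Fix N g → (∀ v, (∀ u ∈ S, ¬ u <+: v) → g v = v) →
      g ∈ Subgroup.closure (RG n) := by
  classical
  induction S using Finset.induction_on with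
  | empty =>
    intro g _ _ h
    have : g = 1 := Equiv.ext fun v => h v (by simp)
    rw [this]
    exact one_mem _
  | insert u S hu ih =>
    intro g hg hf h
    have hul : u.length = N := hS u (by simp)
    have hgu : g u = u := hf u hul.le
    set k := belowP u g hg.1 hgu with hk
    have hkm : k ∈ LG := belowP_mem hN g hg.1 hf hgu
    have hkc : k ∈ Subgroup.closure (RG n) := by
      apply Subgroup.subset_closure
      refine ⟨hkm, u.take n, ?_, ?_⟩
      · rw [List.length_take, hul]
        exact min_eq_left hn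
      · intro v hv
        rw [hk, belowP_apply, if_neg]
        intro h2
        exact hv ((List.take_prefix n u).trans h2)
    have hrest : k⁻¹ * g ∈ Subgroup.closure (RG n) := by
      apply ih (fun u' hu' => hS u' (by simp [hu']))
      · exact mul_mem (inv_mem hkm) hg
      · intro v hv
        rw [Equiv.Perm.mul_apply, hf v hv, Equiv.Perm.inv_eq_iff_eq]
        exact (belowP_fix g hg.1 hf hgu v hv).symm
      · intro v hv
        rw [Equiv.Perm.mul_apply, Equiv.Perm.inv_eq_iff_eq, hk, belowP_apply]
        split_ifs with h2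
        · rfl
        · apply h
          intro u' hu'
          rcases Finset.mem_insert.1 hu' with rfl | h3
          · exact h2
          · exact hv u' h3
    have : g = k * (k⁻¹ * g) := by group
    rw [this]
    exact mul_mem hkc hrest

theorem mem_closure_of_fix {n N : ℕ} (hN : 2 ≤ N) (hn : n ≤ N) {g : Equiv.Perm X} (hg : g ∈ LG)
    (hf : Fix N g) : g ∈ Subgroup.closure (RG n) := by
  have hfin : {u : X | u.length = N}.Finite := List.finite_length_eq Bool N
  apply mem_closure_of_support hN hn hfin.toFinset _ g hg hf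
  · intro v hv
    apply hf
    by_contra hlt
    push Not at hlt
    apply hv (v.take N)
    · rw [Set.Finite.mem_toFinset]
      show (v.take N).length = N
      rw [List.length_take]
      exact min_eq_left hlt.le
    · exact List.take_prefix N v
  · intro u hu
    rw [Set.Finite.mem_toFinset] at hu
    exact hu

/-- the words of length at most `N` -/
abbrev XN (N : ℕ) := {v : X // v.length ≤ N}

instance (N : ℕ) : Finite (XN N) := (List.finite_length_le Bool N).to_subtype

/-- restriction to words of length at most `N` -/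
def res (N : ℕ) : LG →* Equiv.Perm (XN N) where
  toFun g := g.1.subtypePerm (p := fun v : X => v.length ≤ N) (by intro v; rw [g.2.1.2 v])
  map_one' := by ext v; rfl
  map_mul' g h := by ext v; rfl

theorem res_ker {N : ℕ} {g : LG} (h : g ∈ (res N).ker) : Fix N g.1 := by
  intro v hv
  have := congrArg (fun p : Equiv.Perm (XN N) => (p ⟨v, hv⟩).1) (MonoidHom.mem_ker.1 h)
  exact this

theorem index_ne_zero (n : ℕ) : ((Subgroup.closure (RG n)).subgroupOf LG).index ≠ 0 := by
  have h1 : (res (max n 2)).ker ≤ (Subgroup.closure (RG n)).subgroupOf LG := by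
    intro g hg
    rw [Subgroup.mem_subgroupOf]
    exact mem_closure_of_fix (le_max_right n 2) (le_max_left n 2) g.2 (res_ker hg)
  have : (res (max n 2)).ker.FiniteIndex := Subgroup.finiteIndex_ker _
  exact (Subgroup.finiteIndex_of_le h1).index_ne_zero

/-! ### The automorphism is not induced by the tree -/

/-- flip the third letter of the words starting with `x, y` -/
def fl (x y : Bool) : X → X
  | a :: b :: c :: t => if a = x ∧ b = y then a :: b :: (!c) :: t else a :: b :: c :: t
  | l => l

theorem fl_three (x y a b c : Bool) (t : X) :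
    fl x y (a :: b :: c :: t) = a :: b :: (if a = x ∧ b = y then !c else c) :: t := by
  simp only [fl]
  split_ifs <;> rfl

theorem fl_two (x y a b : Bool) (t : X) : ∃ s, fl x y (a :: b :: t) = a :: b :: s := by
  match t with
  | [] => exact ⟨[], rfl⟩
  | c :: t => exact ⟨_, fl_three x y a b c t⟩

theorem fl_fl (x y : Bool) (l : X) : fl x y (fl x y l) = l := by
  match l with
  | [] => rfl
  | [a] => rfl
  | [a, b] => rfl
  | a :: b :: c :: t =>
    rw [fl_three, fl_three]
    split_ifs <;> simp

theorem fl_length (x y : Bool) (l : X) : (fl x y l).length = l.length := by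
  match l with
  | [] => rfl
  | [a] => rfl
  | [a, b] => rfl
  | a :: b :: c :: t =>
    rw [fl_three]
    rfl

theorem fl_prefix1 (x y : Bool) (v w : X) (h : v <+: w) : fl x y v <+: fl x y w := by
  match v, w, h with
  | [], w, _ => exact List.nil_prefix
  | [a], [b], h => exact h
  | [a], [b, b'], h => exact h
  | [a], b :: c :: d :: t, h =>
    rw [fl_three]
    simpa [fl] using h
  | [a, a'], [b, b'], h => exact h
  | [a, a'], b :: c :: d :: t, h =>
    rw [fl_three]
    simpa [fl, List.cons_prefix_cons] using h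
  | a :: b :: c :: t, a' :: b' :: c' :: t', h =>
    rw [fl_three, fl_three]
    simp only [List.cons_prefix_cons] at h ⊢
    obtain ⟨rfl, rfl, rfl, h⟩ := h
    exact ⟨rfl, rfl, rfl, h⟩
  | a :: b :: c :: t, [a', b'], h => exact absurd h.length_le (by simp)

theorem fl_prefix (x y : Bool) (v w : X) : v <+: w ↔ fl x y v <+: fl x y w := by
  refine ⟨fl_prefix1 x y v w, fun h => ?_⟩
  have := fl_prefix1 x y _ _ h
  rwa [fl_fl, fl_fl] at this

/-- flip the third letter of the words starting with `x, y` -/
def flP (x y : Bool) : Equiv.Perm X := ⟨fl x y, fl x y, fl_fl x y, fl_fl x y⟩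

theorem flP_tr (x y : Bool) : Tr false false (flP x y) := by
  intro a b t
  obtain ⟨s, hs⟩ := fl_two x y a b t
  refine ⟨s, ?_⟩
  show fl x y (a :: b :: t) = _
  rw [hs]
  simp

theorem flP_mem (x y : Bool) : flP x y ∈ LG :=
  ⟨⟨fl_prefix x y, fl_length x y⟩, _, _, flP_tr x y⟩

/-- the flip as an element of the group -/
def flE (x y : Bool) : LG := ⟨flP x y, flP_mem x y⟩

theorem al_flE (x y : Bool) : alE (flE x y) = flE y x := by
  apply Subtype.ext
  apply Equiv.ext
  intro v
  show (al (flE x y)).1 v = fl y x v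
  rw [al_apply (flE x y) (flP_tr x y)]
  match v with
  | [] => rfl
  | [a] => simp [tw_one, fl]
  | [a, b] => rfl
  | a :: b :: c :: t =>
    rw [tw_two]
    show sw (fl x y (b :: a :: c :: t)) = _
    rw [fl_three, fl_three, sw_cons]
    congr 3
    by_cases h : b = x ∧ a = y
    · rw [if_pos h, if_pos h.symm]
    · rw [if_neg h, if_neg (fun h' => h h'.symm)]

theorem moved {x y : Bool} {v : X} (h : fl x y v ≠ v) : ∃ t, v = x :: y :: t := by
  match v with
  | [] => exact absurd rfl h
  | [a] => exact absurd rfl h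
  | [a, b] => exact absurd rfl h
  | a :: b :: c :: t =>
    rw [fl_three] at h
    by_cases h2 : a = x ∧ b = y
    · exact ⟨c :: t, by rw [h2.1, h2.2]⟩
    · rw [if_neg h2] at h
      exact absurd rfl h

theorem not_induced (σ : Equiv.Perm X) (hσ : ∀ v w : X, v <+: w ↔ σ v <+: σ w)
    (h : ∀ g : LG, (alE g).1 = σ * g.1 * σ⁻¹) : False := by
  have key : ∀ x y : Bool, ∃ t, σ [x, y, false] = y :: x :: t := by
    intro x y
    apply moved
    have h1 := h (flE x y)
    rw [al_flE] at h1
    have h2 : fl y x (σ [x, y, false]) = σ (fl x y [x, y, false]) := by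
      have h5 := congrArg (fun p : Equiv.Perm X => p (σ [x, y, false])) h1
      have h6 : (flE y x).1 (σ [x, y, false]) = σ ((flE x y).1 [x, y, false]) := by
        simpa using h5
      exact h6
    rw [h2]
    intro h3
    have h4 := σ.injective h3
    rw [fl_three] at h4
    simp at h4
  have nil_of : ∀ x : Bool, σ [x] = [] := by
    intro x
    obtain ⟨t, ht⟩ := key x false
    obtain ⟨s, hs⟩ := key x true
    have h1 := (hσ [x] [x, false, false]).1 (by simp [List.cons_prefix_cons])
    have h2 := (hσ [x] [x, true, false]).1 (by simp [List.cons_prefix_cons])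
    rw [ht] at h1
    rw [hs] at h2
    rcases hx : σ [x] with _ | ⟨a, l⟩
    · rfl
    · rw [hx] at h1 h2
      simp only [List.cons_prefix_cons] at h1 h2
      rw [h1.1] at h2
      exact absurd h2.1 (by simp)
  have : σ [false] = σ [true] := by rw [nil_of, nil_of]
  have := σ.injective this
  simp at this

end Pool.Agent.Helper149_branch
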